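import Pool.Agent.Helper69.MWF.Stmts

/-!
# MP_80e84b_lc (S14965): the tree of the values of `F` in a suitable cylinder is c.e.
-/

set_option autoImplicit false

open Topology Set Filter
open Nat.Partrec (Code)

namespace Pool.Agent.Helper32.MWF

open Pool.Agent.Helper95.MW
open Pool.Agent.Helper69.MWF

/-! ### small facts -/

theorem rt_const' (w : ℕ → ℕ) (k : ℕ) : RT w (fun _ => k) :=
  rt_prim (Primrec.nat_iff.1 (Primrec.const k))

theorem le_zero' (w : ℕ → ℕ) : LE (fun _ => 0) w := by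
  rw [le_iff]
  exact rt_const' w 0

theorem le_cat (v : ℕ → ℕ) (k : ℕ) (y : ℕ → ℕ) : LE (cat v k y) y := by
  rw [le_iff]
  have hG : Nat.Primrec (fun m : ℕ => cond (decide (m.unpair.1 < k))
      ((ini v k).getD m.unpair.1 0) m.unpair.2) := by
    refine Primrec.nat_iff.1 ?_
    refine Primrec.cond ?_ ?_ (Primrec.snd.comp Primrec.unpair)
    · exact (PrimrecRel.decide Primrec.nat_lt).comp (Primrec.fst.comp Primrec.unpair)
        (Primrec.const k)
    · exact (Primrec.list_getD 0).comp (Primrec.const (ini v k))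
        (Primrec.fst.comp Primrec.unpair)
  have hS : Nat.Primrec (fun n : ℕ => n - k) :=
    Primrec.nat_iff.1 (Primrec.nat_sub.comp Primrec.id (Primrec.const k))
  have hid : Nat.Primrec (fun n : ℕ => n) := Primrec.nat_iff.1 Primrec.id
  have h := rt_comp (w := y) (rt_prim hG) (rt_pair (rt_prim hid)
    (rt_comp (rt_oracle y) (rt_prim hS)))
  have e : (fun n => cond (decide ((Nat.pair n (y (n - k))).unpair.1 < k))
      ((ini v k).getD (Nat.pair n (y (n - k))).unpair.1 0) (Nat.pair n (y (n - k))).unpair.2)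
      = cat v k y := by
    funext n
    unfold cat
    rw [Nat.unpair_pair]
    by_cases hn : n < k
    · simp [hn, ini]
    · simp [hn]
  rw [e] at h
  exact h

theorem cat_le (v : ℕ → ℕ) (k : ℕ) (y : ℕ → ℕ) : LE y (cat v k y) := by
  rw [le_iff]
  have hS : Nat.Primrec (fun n : ℕ => n + k) :=
    Primrec.nat_iff.1 (Primrec.nat_add.comp Primrec.id (Primrec.const k))
  have h := rt_comp (rt_oracle (cat v k y)) (rt_prim (w := cat v k y) hS)
  have e : (fun n => cat v k y (n + k)) = y := by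
    funext n
    unfold cat
    rw [if_neg (by omega), Nat.add_sub_cancel]
  rw [e] at h
  exact h

theorem isOpen_Cy' (f : ℕ → ℕ) (n : ℕ) : IsOpen (Cy f n) := by
  have e : Cy f n = ⋂ i ∈ Finset.range n, {x : ℕ → ℕ | x i = f i} := by
    ext x
    simp [Cy]
  rw [e]
  refine isOpen_biInter_finset fun i _ => ?_
  have h : Continuous fun x : ℕ → ℕ => x i := continuous_apply i
  exact (isOpen_discrete ({f i} : Set ℕ)).preimage h

theorem ini_eq_of_Cy {x y : ℕ → ℕ} {n : ℕ} (h : x ∈ Cy y n) : ini x n = ini y n :=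
  ini_eq_of_agree h

/-! ### one step -/

theorem ceIn_step (c : Code) (x w : ℕ → ℕ) (hx : LE x w) :
    CEIn {m | ∃ t ≤ (dl m.unpair.1).length,
      (c.eval (Nat.pair m.unpair.2 (ec (zp (ini x t) (dl m.unpair.1) t)))).Dom} w := by
  have h := ceIn_search (α := ℕ × ℕ)
    (fun v => (ev c v.2.1.2 (Nat.pair v.1.unpair.2
        (ec (zp v.2.2 (dl v.1.unpair.1) v.2.1.1)))) &&
      decide (v.2.1.1 ≤ (dl v.1.unpair.1).length))
    (by
      have h1 : Primrec fun v : ℕ × (ℕ × ℕ) × List ℕ => dl v.1.unpair.1 :=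
        primrec_dl.comp (Primrec.fst.comp (Primrec.unpair.comp Primrec.fst))
      have h2 : Primrec fun v : ℕ × (ℕ × ℕ) × List ℕ => v.2.1.1 :=
        Primrec.fst.comp (Primrec.fst.comp Primrec.snd)
      refine Primrec.and.comp ?_ ?_
      · refine (primrec_ev c).comp ?_ ?_
        · exact Primrec.snd.comp (Primrec.fst.comp Primrec.snd)
        · refine Primrec₂.natPair.comp (Primrec.snd.comp (Primrec.unpair.comp Primrec.fst))
            (primrec_ec.comp ?_)
          refine primrec_zp.comp (Primrec.pair (Primrec.pair ?_ ?_) ?_)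
          · exact Primrec.snd.comp Primrec.snd
          · exact h1
          · exact h2
      · exact (PrimrecRel.decide Primrec.nat_le).comp h2 (Primrec.list_length.comp h1))
    (fun T => T.1) Primrec.fst x
  refine CEIn.mono ?_ hx
  have e : {n : ℕ | ∃ T : ℕ × ℕ, ((ev c T.2 (Nat.pair n.unpair.2
        (ec (zp (ini x T.1) (dl n.unpair.1) T.1)))) &&
      decide (T.1 ≤ (dl n.unpair.1).length)) = true} =
      {m : ℕ | ∃ t ≤ (dl m.unpair.1).length,
      (c.eval (Nat.pair m.unpair.2 (ec (zp (ini x t) (dl m.unpair.1) t)))).Dom} := by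
    ext m
    constructor
    · rintro ⟨⟨t, T⟩, h1⟩
      simp only [Bool.and_eq_true, decide_eq_true_eq] at h1
      exact ⟨t, h1.2, (dom_iff_ev c _).2 ⟨T, h1.1⟩⟩
    · rintro ⟨t, h1, h2⟩
      obtain ⟨T, hT⟩ := (dom_iff_ev c _).1 h2
      refine ⟨(t, T), ?_⟩
      simp only [Bool.and_eq_true, decide_eq_true_eq]
      exact ⟨hT, h1⟩
  rw [← e]
  exact h

/-- the step relation with the functions `x1`, `x2` -/
def Rl (c : Code) (x1 x2 : ℕ → ℕ) (a b : ℕ) : Prop :=
  (∃ t ≤ (dl a).length, (c.eval (Nat.pair b (ec (zp (ini x1 t) (dl a) t)))).Dom) ∨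
  (∃ t ≤ (dl a).length, (c.eval (Nat.pair b (ec (zp (ini x2 t) (dl a) t)))).Dom)

theorem step_mem {c : Code} {x y : ℕ → ℕ} {a b : ℕ} (ha : a ∈ segs y)
    (h : ∃ t ≤ (dl a).length, (c.eval (Nat.pair b (ec (zp (ini x t) (dl a) t)))).Dom) :
    b ∈ WC c (jn x y) := by
  obtain ⟨l, rfl⟩ := ha
  obtain ⟨t, ht, h⟩ := h
  rw [dl_ec, ini_length] at ht
  rw [dl_ec, ini_jn x y t t l le_rfl ht] at h
  exact ⟨t, h⟩

theorem mem_step {c : Code} {x y : ℕ → ℕ} {b : ℕ} (h : b ∈ WC c (jn x y)) :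
    ∃ a ∈ segs y,
      ∃ t ≤ (dl a).length, (c.eval (Nat.pair b (ec (zp (ini x t) (dl a) t)))).Dom := by
  obtain ⟨t, ht⟩ := h
  refine ⟨ec (ini y t), ⟨t, rfl⟩, t, ?_, ?_⟩
  · rw [dl_ec, ini_length]
  · rw [dl_ec, ini_jn x y t t t le_rfl le_rfl]
    exact ht

/-- the initial segments of the values on the orbit are c.e. -/
theorem ceIn_orbit (hRTG : ST_RTG) (hCEC : ST_CEC) {F : (ℕ → ℕ) → (ℕ → ℕ)} {u : ℕ → ℕ} {M : ℕ}
    {c : Code} {s g : ℕ → ℕ}
    (h1 : ∀ w, segs (F (alp u M s (orb u M s g w))) = WC c (jn (F s) (F (orb u M s g w))))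
    (h2 : ∀ w, segs (F (alp u M (Hm u M s) (orb u M s g w))) =
      WC c (jn (F (Hm u M s)) (F (orb u M s g w))))
    {z : ℕ → ℕ} (hz1 : LE (F s) z) (hz2 : LE (F (Hm u M s)) z) (hz3 : LE (F g) z) :
    CEIn {m | ∃ w, m ∈ segs (F (orb u M s g w))} z := by
  have hR : CEIn {m | Rl c (F s) (F (Hm u M s)) m.unpair.1 m.unpair.2} z :=
    hCEC.2.1 _ _ _ (ceIn_step c (F s) z hz1) (ceIn_step c (F (Hm u M s)) z hz2)
  have h := hRTG (segs (F g)) (Rl c (F s) (F (Hm u M s))) z (le_iff_segs.1 hz3) hR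
  have e : {m | ∃ w, m ∈ segs (F (orb u M s g w))} =
      {b | ∃ a ∈ segs (F g), Relation.ReflTransGen (Rl c (F s) (F (Hm u M s))) a b} := by
    ext m
    constructor
    · rintro ⟨w, hw⟩
      induction w generalizing m with
      | nil => exact ⟨m, hw, Relation.ReflTransGen.refl⟩
      | cons b w ih =>
        cases b with
        | false =>
          have h3 : m ∈ WC c (jn (F s) (F (orb u M s g w))) := by
            rw [← h1 w]
            exact hw
          obtain ⟨a, ha, hs⟩ := mem_step h3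
          obtain ⟨a0, ha0, hr⟩ := ih a ha
          exact ⟨a0, ha0, hr.tail (Or.inl hs)⟩
        | true =>
          have h3 : m ∈ WC c (jn (F (Hm u M s)) (F (orb u M s g w))) := by
            rw [← h2 w]
            exact hw
          obtain ⟨a, ha, hs⟩ := mem_step h3
          obtain ⟨a0, ha0, hr⟩ := ih a ha
          exact ⟨a0, ha0, hr.tail (Or.inr hs)⟩
    · rintro ⟨a, ha, hr⟩
      induction hr with
      | refl => exact ⟨[], ha⟩
      | tail _ hs ih =>
        obtain ⟨w, hw⟩ := ih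
        rcases hs with hs | hs
        · refine ⟨false :: w, ?_⟩
          have h3 := step_mem hw hs
          rw [← h1 w] at h3
          exact h3
        · refine ⟨true :: w, ?_⟩
          have h3 := step_mem hw hs
          rw [← h2 w] at h3
          exact h3
  rw [e]
  exact h

theorem orb_mem_Cy {u : ℕ → ℕ} {M : ℕ} {s g : ℕ → ℕ} (hg : g ∈ Cy u M) (w : List Bool) :
    orb u M s g w ∈ Cy u M := by
  cases w with
  | nil => exact hg
  | cons b w =>
    intro i hi
    change pre u M _ i = u i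
    unfold pre
    rw [if_pos hi]

/-- `T` is the set of the initial segments of the values on the orbit -/
theorem ts_eq {π F : (ℕ → ℕ) → (ℕ → ℕ)} {G : Set (ℕ → ℕ)} (hF : Rep π F G) {u : ℕ → ℕ} {M : ℕ}
    {s g : ℕ → ℕ} (hg : g ∈ Cy u M) (h1 : ∀ w, orb u M s g w ∈ G)
    (h2 : ∀ (v : ℕ → ℕ) (k : ℕ), v ∈ Cy u M → ∃ w : List Bool, orb u M s g w ∈ Cy v k) :
    TS F (G ∩ Cy u M) = {m | ∃ w, m ∈ segs (F (orb u M s g w))} := by
  ext m
  constructor
  · rintro ⟨x, hx, t, rfl⟩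
    obtain ⟨k, hk⟩ := hF.cont x hx.1 t
    obtain ⟨w, hw⟩ := h2 x k hx.2
    refine ⟨w, t, ?_⟩
    rw [ini_eq_of_Cy (hk _ (h1 w) hw)]
  · rintro ⟨w, hw⟩
    exact ⟨_, ⟨h1 w, orb_mem_Cy hg w⟩, hw⟩

theorem tree1 (hBOX : ST_BOX) (hORB1 : ST_ORB1) (hORB2 : ST_ORB2) (hRTG : ST_RTG) (hCL : ST_CL)
    (hHM : ST_HM) (hRES : ST_RES) (hCEC : ST_CEC) : ST_TREE1 := by
  intro π F G hπ hF
  obtain ⟨u, M, W, c, hW, hWne, hWH, hbox⟩ := hBOX π F G hπ hF
  refine ⟨u, M, ?_⟩
  obtain ⟨-, -, -, -, hRj, hRf, hRs, -, -⟩ := hRES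
  -- the generic pairs
  have hO1 : {p : (ℕ → ℕ) × (ℕ → ℕ) | p.2 ∈ G} ∈ residual ((ℕ → ℕ) × (ℕ → ℕ)) := hRs hF.res
  have hO2 : {p : (ℕ → ℕ) × (ℕ → ℕ) | p.1 ∈ G} ∈ residual ((ℕ → ℕ) × (ℕ → ℕ)) := hRf hF.res
  have hO3 : {p : (ℕ → ℕ) × (ℕ → ℕ) | Hm u M p.1 ∈ G} ∈ residual ((ℕ → ℕ) × (ℕ → ℕ)) :=
    hRf ((hHM u M).2.2.1 hF.res)
  have hO4 : {p : (ℕ → ℕ) × (ℕ → ℕ) | p.1 ∈ W → p.2 ∈ Cy u M →
      segs (F (alp u M p.1 p.2)) = WC c (jn (F p.1) (F p.2))} ∈
      residual ((ℕ → ℕ) × (ℕ → ℕ)) := hbox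
  have hgen : ∀ᶠ p in residual ((ℕ → ℕ) × (ℕ → ℕ)), p.1 ∈ W → p.2 ∈ Cy u M →
      CEIn (TS F (G ∩ Cy u M)) (jn (fun _ => 0) (π (jn p.1 p.2))) := by
    filter_upwards [hO1, hO2, hO3, hORB1 u M W hW hWH _ hO1, hORB1 u M W hW hWH _ hO4,
      hORB2 u M W hW] with p hp1 hp2 hp3 hp4 hp5 hp6 hpW hpu
    have k1 : ∀ w, orb u M p.1 p.2 w ∈ G := fun w => (hp4 hpW hpu w).1
    rw [ts_eq hF hpu k1 (hp6 hpW hpu)]
    have l1 : LE (π p.1) (π (jn p.1 p.2)) := (hπ.iff _ _).1 (le_jn_left _ _)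
    have l2 : LE (π p.2) (π (jn p.1 p.2)) := (hπ.iff _ _).1 (le_jn_right _ _)
    have l3 : LE (π (Hm u M p.1)) (π (jn p.1 p.2)) :=
      (hπ.iff _ _).1 (((hHM u M).2.1 p.1).trans (le_jn_left _ _))
    have l4 := le_jn_right (fun _ => 0) (π (jn p.1 p.2))
    refine ceIn_orbit hRTG hCEC (c := c) ?_ ?_ (((hF.te _ hp2).1.trans l1).trans l4)
      (((hF.te _ hp3).1.trans l3).trans l4) (((hF.te _ hp1).1.trans l2).trans l4)
    · intro w
      exact (hp5 hpW hpu w).1 hpW (orb_mem_Cy hpu w)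
    · intro w
      exact (hp5 hpW hpu w).2 (hWH _ hpW) (orb_mem_Cy hpu w)
  refine hCL π hπ _ _ fun hm => ?_
  have h1 : {h : ℕ → ℕ | CEIn (TS F (G ∩ Cy u M)) (jn (fun _ => 0) (π h))}ᶜ ∈
      residual (ℕ → ℕ) := hm
  have h2 := (hRj _).1 h1
  have h3 : ∀ᶠ p in residual ((ℕ → ℕ) × (ℕ → ℕ)), ¬ (p.1 ∈ W ∧ p.2 ∈ Cy u M) := by
    filter_upwards [hgen, h2] with p hp1 hp2 hp3
    exact hp2 (hp1 hp3.1 hp3.2)
  have h4 : IsOpen (W ×ˢ Cy u M) := hW.prod (isOpen_Cy' u M)
  have h5 : (W ×ˢ Cy u M).Nonempty := hWne.prod ⟨u, fun i _ => rfl⟩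
  obtain ⟨p, hp1, hp2⟩ := (dense_of_mem_residual h3).inter_open_nonempty _ h4 h5
  exact hp2 ⟨hp1.1, hp1.2⟩

/-! ### all cylinders -/

theorem tree (hTREE1 : ST_TREE1) (hRES : ST_RES) : ST_TREE := by
  intro π F G hπ hF v k
  have hcat : ∀ y, LE (cat v k y) y ∧ LE y (cat v k y) := fun y =>
    ⟨le_cat v k y, cat_le v k y⟩
  have hπ' : PiAut (fun y => π (cat v k y)) := by
    constructor
    · intro g f
      rw [← hπ.iff]
      exact ⟨fun h => ((hcat g).1.trans h).trans (hcat f).2,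
        fun h => ((hcat g).2.trans h).trans (hcat f).1⟩
    · intro h
      obtain ⟨f, hf1, hf2⟩ := hπ.surj h
      exact ⟨f, ((hπ.iff _ _).1 (hcat f).1).trans hf1, hf2.trans ((hπ.iff _ _).1 (hcat f).2)⟩
  have hF' : Rep (fun y => π (cat v k y)) (fun y => F (cat v k y)) {y | cat v k y ∈ G} := by
    constructor
    · have h1 := (hRES.2.2.2.1 v k (fun x => x ∈ G)).1 (by
        filter_upwards [hF.res] with x hx _
        exact hx)
      exact h1
    · intro y hy
      exact hF.te _ hy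
    · refine hF.meas.comp ?_
      refine measurable_pi_iff.2 fun i => ?_
      unfold cat
      by_cases hi : i < k
      · simp only [hi, if_true]
        exact measurable_const
      · simp only [hi, if_false]
        exact measurable_pi_apply _
    · intro y hy n
      obtain ⟨m, hm⟩ := hF.cont _ hy n
      refine ⟨m, fun y' hy' hyy => hm _ hy' ?_⟩
      intro i hi
      unfold cat
      by_cases hik : i < k
      · rw [if_pos hik, if_pos hik]
      · rw [if_neg hik, if_neg hik]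
        exact hyy _ (by omega)
    · intro y hy n
      obtain ⟨m, hm⟩ := hF.inv _ hy (n + k)
      refine ⟨m, fun y' hy' hyy => ?_⟩
      have h1 := hm _ hy' hyy
      intro i hi
      have h2 := h1 (i + k) (by omega)
      unfold cat at h2
      rw [if_neg (by omega), if_neg (by omega), Nat.add_sub_cancel] at h2
      exact h2
  obtain ⟨u, n, hun⟩ := hTREE1 _ _ _ hπ' hF'
  refine ⟨cat v k u, n + k, by omega, ?_, ?_⟩
  · intro i hi
    unfold cat
    rw [if_pos hi]
  · have e : TS (fun y => F (cat v k y)) ({y | cat v k y ∈ G} ∩ Cy u n) =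
        TS F (G ∩ Cy (cat v k u) (n + k)) := by
      ext m
      constructor
      · rintro ⟨y, ⟨hy1, hy2⟩, hm⟩
        refine ⟨cat v k y, ⟨hy1, ?_⟩, hm⟩
        intro i hi
        unfold cat
        by_cases hik : i < k
        · rw [if_pos hik, if_pos hik]
        · rw [if_neg hik, if_neg hik]
          exact hy2 _ (by omega)
      · rintro ⟨x, ⟨hx1, hx2⟩, hm⟩
        have h1 : cat v k (fun i => x (i + k)) = x := by
          funext i
          unfold cat
          by_cases hik : i < k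
          · rw [if_pos hik]
            have := hx2 i (by omega)
            unfold cat at this
            rw [if_pos hik] at this
            exact this.symm
          · rw [if_neg hik]
            change x (i - k + k) = x i
            rw [Nat.sub_add_cancel (by omega)]
        refine ⟨fun i => x (i + k), ⟨?_, ?_⟩, ?_⟩
        · change cat v k (fun i => x (i + k)) ∈ G
          rw [h1]
          exact hx1
        · intro i hi
          have := hx2 (i + k) (by omega)
          unfold cat at this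
          rw [if_neg (by omega), Nat.add_sub_cancel] at this
          exact this
        · change m ∈ segs (F (cat v k (fun i => x (i + k))))
          rw [h1]
          exact hm
    rw [← e]
    exact hun

theorem tree' (hBOX : ST_BOX) (hORB1 : ST_ORB1) (hORB2 : ST_ORB2) (hRTG : ST_RTG) (hCL : ST_CL)
    (hHM : ST_HM) (hRES : ST_RES) (hCEC : ST_CEC) : ST_TREE :=
  tree (tree1 hBOX hORB1 hORB2 hRTG hCL hHM hRES hCEC) hRES

end Pool.Agent.Helper32.MWF
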